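import Pool.Agent.H641R2.DCS.Final

/-!
# Disjoint Connected Subgraphs in time `2 ^ n * poly (n)`

For a vertex subset `X`, the number `h (X)` of families consisting of one branching walk in `G[X]`
for each index `i` (using only vertices of `Z i` and non-terminals) together with a word of
non-terminals of `X`, of total length `n`, is computed in polynomial time by dynamic programming.
The alternating sum of `h (X)` over all `X` counts the families using every vertex exactly once,
so it is nonzero exactly for yes-instances. The program evaluates this sum modulo a power of two
larger than its value.
-/

namespace Pool.Agent.Results.MP_14a7d6_lc.DisjointConnectedTwoPow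

open Pool.Agent.H588R2 Pool.Agent.H641R2.DCS

/-- Some word RAM program solves Disjoint Connected Subgraphs (`k` part of the input) on all
graphs with `n` vertices in at most `C * 2 ^ n * (n + 1) ^ a` steps. -/
theorem result : ∃ (P : List Instr) (c C a : ℕ),
    Solves P c (fun n => (C : ℝ) * 2 ^ n * ((n : ℝ) + 1) ^ a) :=
  dcs_two_pow

end Pool.Agent.Results.MP_14a7d6_lc.DisjointConnectedTwoPow
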